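import Pool.Agent.Helper57.VA.Final

/-!
# The criterion with three weights `a + b + c = 1`
-/

set_option autoImplicit false

namespace Pool.Agent.Helper57.VA

open Complex Polynomial Pool.Agent.Helper85.Exp Pool.Agent.Helper60.EV2 Pool.Agent.Helper2.PD Pool.Agent.Helper43.Pln Pool.Agent.Helper2.V8B
  Pool.Agent.Helper60.S4

variable {P : Type} [Fintype P] {G : Sh P}

/-- **The criterion** with three weights. -/
theorem mainABC (hG : Plane G) {I : P → Prop} (hI : Bigons G I) {a b c : ℝ} (ha : 0 ≤ a) (hb : 0 ≤ b) (hc : 0 ≤ c) (habc : a + b + c = 1)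
    {u v : P → ℝ} (huv : ∀ p, u (seifert G p) = u p ∧ v (seifert G p) = v p ∧ 0 ≤ u p ∧ 0 ≤ v p)
    (hw : ∀ p, G.lf p = true → ¬ I p → ¬ Rigid G p → ¬ Rigid G (G.op p) → u p + v (G.op p) = c ∧
      (a * (Real.cot (Real.pi / total G I p) / 2) + b * (√(side G I true p * side G I false p) / 4)) +
        (a * (Real.cot (Real.pi / total G I (G.op p)) / 2) + b * (√(side G I true (G.op p) * side G I false (G.op p)) / 4)) +
        (u p * Real.cot (Real.pi / side G I true p) + v (G.op p) * Real.cot (Real.pi / side G I false (G.op p))) ≤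
        (√3 + 9 / 10) * a + √3 * b + c / √3 ∧
      (Two G I p →
        (a * (Real.cot (Real.pi / total G I p) / 2) + b * (√(side G I true p * side G I false p) / 4)) +
        (a * (Real.cot (Real.pi / total G I (G.op p)) / 2) + b * (√(side G I true (G.op p) * side G I false (G.op p)) / 4)) +
        (u p * Real.cot (Real.pi / side G I true p) + v (G.op p) * Real.cot (Real.pi / side G I false (G.op p))) ≤
        (8 * a + 5 * b) / 3 + c / √3))
    {nab : Dg G → ℤ[X]} (hn : Cs nab) :
    LogConcave G nab ∧ ∀ z : ℂ, aeval z (nab (allPos G)) = 0 → 3 * z.re ^ 2 ≤ z.im ^ 2 := by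
  obtain ⟨α, h0, h1, e1, e2⟩ : ∃ α : ℝ, 0 ≤ α ∧ α ≤ 1 ∧ a = (1 - c) * α ∧ b = (1 - c) * (1 - α) := by
    rcases eq_or_ne (1 - c) 0 with h | h
    · refine ⟨0, le_rfl, zero_le_one, ?_, ?_⟩
      · rw [h]
        linarith
      · rw [h]
        linarith
    · have h2 : 0 < 1 - c := lt_of_le_of_ne (by linarith) (Ne.symm h)
      refine ⟨a / (1 - c), by positivity, (div_le_one h2).2 (by linarith), ?_, ?_⟩
      · field_simp
      · field_simp
        linarith
  have hW : ∀ p, (1 - c) * weight α G I p = a * (Real.cot (Real.pi / total G I p) / 2) + b * (√(side G I true p * side G I false p) / 4) := by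
    intro p
    unfold weight
    rw [e1, e2]
    ring
  have e3 : (1 - c) * (√3 + 9 / 10 * α) + c / √3 = (√3 + 9 / 10) * a + √3 * b + c / √3 := by
    rw [e1, e2]
    ring
  have e4 : (1 - c) * (5 / 3 + α) + c / √3 = (8 * a + 5 * b) / 3 + c / √3 := by
    rw [e1, e2]
    ring
  refine mainRA hG h0 h1 hc (by linarith) hI (fun p => (huv p).1) (fun p => (huv p).2.1) (fun p => (huv p).2.2.1) (fun p => (huv p).2.2.2)
    (fun p hl hp hr hr' => (hw p hl hp hr hr').1) (fun p hl hp hr hr' => ?_) hn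
  obtain ⟨-, h3, h4⟩ := hw p hl hp hr hr'
  rw [mul_add, hW, hW, e3, e4]
  unfold regw
  exact ⟨h3, h4⟩

end Pool.Agent.Helper57.VA
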