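import Pool.Agent.Helper60.PD.Full
import Pool.Agent.Helper2.V8B.Ten
import Pool.Agent.Helper57.VA.Abc

/-!
# MP_ea8a26_gt: Q1 for the positive diagrams with few twist regions on every Seifert circle, or on one side of every Seifert circle, and for at most four Seifert circles

A diagram without signs is a shadow `G : Sh P` (`Helper85.EV2.Exp`): `P` is the finite set of the passages of the link through the crossings, `nxt i` the next passage along the link, `op i`
the other passage of the same crossing, and `lf i = true` if the other strand crosses from the left to the right, seen in the direction of travel. The edge `i` goes from the passage `i` to the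
passage `nxt i`. `Face G` (`Helper2.PD.Faces`) are the faces: the classes of the sides of the edges under turning left at every crossing. `Plane G` (`Helper43.PD.Plane`): every
passage belongs to a crossing, `G` is connected, and the number of faces is the number of crossings plus two, so that `G` is a connected diagram in the sphere. `Dg G` are the diagrams on `G`,
each crossing positive, negative or smoothed; `allPos G` is the positive one. `Cs nab` (`Helper60.EV2.Exist`): `nab` has the properties of the Conway polynomial on these diagrams; there is
exactly one such `nab`.

Twist regions (`Helper2.V8B.Def`): `Bigons G I` says that `I` is a set of bigons between two parallel crossings of the same two Seifert circles, each bigon given by its two edges. The crossings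
joined by chains of bigons of `I` form the twist regions; if `I` is empty, they are the crossings, if `I` is the set of all such bigons, they are the maximal rows of parallel crossings. For the
Seifert circle `C` of an edge, `side` is the number `l` or `r` of the twist regions on the left or the right side of `C` (each counted at its last crossing), `total = l + r`, and
`wgt = a cot (π / (l + r)) / 2 + b √(l r) / 4` (which is `0` for `l + r = 1`, since `cot π = 0` in Lean). `Sides G u v`: `u` and `v` give nonnegative numbers `u(C)`, `v(C)` for the right and
for the left side of every Seifert circle `C`. `load` is, for a twist region on the right side of `C` and on the left side of `C'`, the sum of the two `wgt` and of `u(C) cot (π / r(C))` and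
`v(C') cot (π / l(C'))`. `Two G I p`: the twist region with last crossing at `p` has two crossings. The condition `u(C) + v(C') = c` makes `u` and `c - v` constant on the circles around every
component of the sphere minus the Seifert circles: `u` gives the share of the area of the polygons on the right sides, `v` that of the polygons on the left sides. With `a = b = 0`, `c = 1`,
and `u`, `v` with values `0` and `1`, the criterion says: in every component of the sphere minus the Seifert circles, the circles which have it on the right, or the circles which have it on the
left, have at most three twist regions each in it (for example at most three twist regions on the right side of every circle, and any number on the left side).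

Rigid circles (`Helper60.S4.RDefs`): a Seifert circle with crossings on both sides is rigid if (`Rig11`) it meets one circle on each side, or (`Rig21`) one circle on one side and two on the other,
one of which meets no other circle, where all these neighbours have crossings on one side only, or (`RigP`) it is one of two neighbouring circles, which meet only each other on the sides
facing each other, and each meets on its other side only one circle, which has crossings on one side only. With at most four circles, every circle with crossings on both sides is rigid.

Proof. Let `∇ (s⁻¹ - s) = 0`, `|s| < 1`. Then there are numbers `c`, not all zero, on the faces, zero on the two faces of one edge, with `N + s² S = s (W + E)` at every crossing. In a twist region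
of `m` crossings `W` and `E` are constant, and the relation between its first and last face is of the same form, with a coefficient that depends on `m`. Put `d = N - S`,
`U = ∑ |d|²`, `A = ∑ Im (S̄ N)`, `J = ∑ Im ((W + E) d̄)`, summed over the twist regions. The relations and two telescoping sums along the Seifert circles express `A` and `J` by the `|d|²`.
On the other hand `A` and `J` are sums over the Seifert circles of areas of closed polygons, whose vertices are the values of `c` on the faces along the circle between the twist regions; the
isoperimetric inequality for polygons bounds them by the weights times `|d|²`. The area `A` alone is also the sum of the areas of the polygons of the values on the right sides of the circles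
only, or on the left sides only, and one may choose between both in every component of the sphere minus the Seifert circles. Outside the sector `c` is constant along both sides of a rigid
circle: its values form a colouring of a word in at most four strands, to which the certificate of our result on closed 4-braids applies; so a rigid circle contributes nothing and `d = 0` at
its crossings. For zeros outside the sector this gives `U = 0`, and then `c = 0`.
-/

set_option autoImplicit false

namespace Pool.Agent.Helper57.VA.Draft

open Polynomial Pool.Agent.Helper85.Exp Pool.Agent.Helper60.EV2 Pool.Agent.Helper43.Pln Pool.Agent.Helper2.V8B Pool.Agent.Helper60.S4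

/-- The conclusion: the inequality of Q1, and `3 (Re z)² ≤ (Im z)²` for all zeros `z` of the Conway polynomial of the positive diagram. -/
def Sector {P : Type} [Fintype P] (G : Sh P) : Prop :=
  ∀ nab : Dg G → ℤ[X], Cs nab → LogConcave G nab ∧ ∀ z : ℂ, aeval z (nab (allPos G)) = 0 → 3 * z.re ^ 2 ≤ z.im ^ 2

/-- `p` is at the last crossing of a twist region which lies on no rigid circle. -/
def Free {P : Type} (G : Sh P) (I : P → Prop) (p : P) : Prop := ¬ I p ∧ ¬ Rigid G p ∧ ¬ Rigid G (G.op p)

/-- `u` and `v` are nonnegative numbers at the Seifert circles, for their right and for their left sides. -/
def Sides {P : Type} (G : Sh P) (u v : P → ℝ) : Prop := ∀ p, u (seifert G p) = u p ∧ v (seifert G p) = v p ∧ 0 ≤ u p ∧ 0 ≤ v p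

/-- The weight of the Seifert circle that contains the edge `p`. -/
noncomputable def wgt {P : Type} (a b : ℝ) (G : Sh P) (I : P → Prop) (p : P) : ℝ :=
  a * (Real.cot (Real.pi / total G I p) / 2) + b * (√(side G I true p * side G I false p) / 4)

/-- The weight of the twist region with last crossing at `p`, on the right side of the circle of `p` and on the left side of the circle of `op p` (if `lf p = true`). -/
noncomputable def load {P : Type} (a b : ℝ) (G : Sh P) (I : P → Prop) (u v : P → ℝ) (p : P) : ℝ :=
  wgt a b G I p + wgt a b G I (G.op p) + (u p * Real.cot (Real.pi / side G I true p) + v (G.op p) * Real.cot (Real.pi / side G I false (G.op p)))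

/-- **Main theorem.** On the diagrams of every connected shadow in the sphere there is exactly one Conway polynomial. Let `I` be any set of bigons between parallel crossings, `a`, `b`, `c ≥ 0`
with `a + b + c = 1`, and `u`, `v` nonnegative numbers for the right and left sides of the Seifert circles. If for every twist region which lies on no rigid circle, on the right side of `C` and
on the left side of `C'`, one has `u(C) + v(C') = c` and the weight `load` is at most `(√3 + 9 / 10) a + √3 b + c / √3`, and at most `(8 a + 5 b) / 3 + c / √3` if the region has exactly two
crossings, then all zeros of the Conway polynomial of the positive diagram lie in the sector `3 (Re z)² ≤ (Im z)²`, and the inequality of Q1 holds. This is so if there are at most three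
twist regions on the right side of the left Seifert circle of each of these twist regions, also if the numbers `total = l + r` of the two Seifert circles at each of these twist regions add up
to at most 17, if `l r ≤ 12` for these circles and `l r ≤ 11` for the circles at the twist regions with exactly two crossings, if the diagram has at most ten twist regions, or twice this number
is at most 15 plus the number of Seifert circles, and if it has at most four Seifert circles. -/
theorem result :
    (∀ (P : Type) [Fintype P] (G : Sh P), Plane G → ∃! nab : Dg G → ℤ[X], Cs nab) ∧
    ∀ (P : Type) [Fintype P] (G : Sh P), Plane G →
      (∀ I : P → Prop, Bigons G I →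
        (∀ a b c : ℝ, 0 ≤ a → 0 ≤ b → 0 ≤ c → a + b + c = 1 → ∀ u v : P → ℝ, Sides G u v →
          (∀ p, Free G I p → G.lf p = true → u p + v (G.op p) = c ∧ load a b G I u v p ≤ (√3 + 9 / 10) * a + √3 * b + c / √3 ∧
            (Two G I p → load a b G I u v p ≤ (8 * a + 5 * b) / 3 + c / √3)) → Sector G) ∧
        ((∀ p, Free G I p → G.lf p = true → side G I true p ≤ 3) → Sector G) ∧
        ((∀ p, Free G I p → total G I p + total G I (G.op p) ≤ 17) → Sector G) ∧
        ((∀ p, Free G I p → side G I false p * side G I true p ≤ 12 ∧
          (Two G I p → side G I false p * side G I true p ≤ 11 ∧ side G I false (G.op p) * side G I true (G.op p) ≤ 11)) → Sector G) ∧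
        (Nat.card {p : P // ¬ I p ∧ G.lf p = true} ≤ 10 ∨ 2 * Nat.card {p : P // ¬ I p ∧ G.lf p = true} ≤ 15 + circles G → Sector G)) ∧
      (circles G ≤ 4 → Sector G) := by
  refine ⟨fun P _ G h => ?_, fun P _ G hG => ⟨fun I hI => ⟨fun a b c ha hb hc habc u v huv hw nab hn => ?_, fun h nab hn => ?_, fun h nab hn => ?_,
    fun h nab hn => ?_, fun h nab hn => ?_⟩, fun h4 nab hn => ?_⟩⟩
  · have := nonempty_of h
    exact Pool.Agent.Helper60.PD.exists_unique_nab h.conn h.cross h.genus
  · exact Pool.Agent.Helper57.VA.mainABC hG hI ha hb hc habc huv (fun p hl hp hr hr' => hw p ⟨hp, hr, hr'⟩ hl) hn
  · exact Pool.Agent.Helper57.VA.threeR hG hI (A := fun _ => True) (B := fun _ => False) (fun _ => Iff.rfl) (fun _ => Iff.rfl) (fun _ _ _ _ _ => by simp)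
      (fun p hl hp hr hr' _ => h p ⟨hp, hr, hr'⟩ hl) (fun _ _ _ _ _ h => absurd trivial h) hn
  · exact mainR hG zero_le_one le_rfl hI (hw17R hI fun p hp hr hr' => h p ⟨hp, hr, hr'⟩) hn
  · exact mainR hG le_rfl zero_le_one hI (hw12R hI fun p hp hr hr' => h p ⟨hp, hr, hr'⟩) hn
  · exact ten hG hI h hn
  · exact mainR hG le_rfl zero_le_one (I := fun _ => False) ⟨fun _ h => h.elim, fun _ h => h⟩ (fun p _ hr hr' => hw_four hG h4 _ p hr hr') hn

end Pool.Agent.Helper57.VA.Draft
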