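import Pool.Agent.Helper2.V8B.Bridge

/-!
# Closed polygons with few edges different from zero

`bet r = cot (π / r) / 2`. The area of a closed polygon with at most `r` edges different from zero is at most `bet r` times the sum of the squares of the edges.
-/

set_option autoImplicit false

namespace Pool.Agent.Helper57.VA

open Complex Finset Pool.Agent.Helper59.V8

/-- Removing one term which is zero. -/
theorem sum_remove (f : ℕ → ℝ) {n k : ℕ} (hk : k ≤ n) (h0 : f k = 0) :
    ∑ i ∈ range (n + 1), f i = ∑ i ∈ range n, f (if i < k then i else i + 1) := by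
  obtain ⟨d, rfl⟩ := Nat.exists_eq_add_of_le hk
  have e0 : ∑ i ∈ range (k + d + 1), f i = ∑ i ∈ range k, f i + ∑ i ∈ range d, f (k + (i + 1)) := by
    rw [show k + d + 1 = k + (d + 1) by ring, Finset.sum_range_add, Finset.sum_range_succ', add_zero, h0, add_zero]
  have e1 : ∑ i ∈ range k, f (if i < k then i else i + 1) = ∑ i ∈ range k, f i :=
    Finset.sum_congr rfl fun i hi => by rw [if_pos (Finset.mem_range.1 hi)]
  have e2 : ∑ i ∈ range d, f (if k + i < k then k + i else k + i + 1) = ∑ i ∈ range d, f (k + (i + 1)) :=
    Finset.sum_congr rfl fun i _ => by rw [if_neg (by omega), add_assoc]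
  rw [e0, Finset.sum_range_add, e1, e2]

/-- **Closed polygons with few edges.** -/
theorem few (n : ℕ) : ∀ (h : ℕ → ℂ) (b : ℕ → Bool), h n = h 0 → (∀ k < n, b k = false → h (k + 1) = h k) →
    |∑ i ∈ range n, ((starRingEnd ℂ) (h i) * h (i + 1)).im| ≤
      bet ((range n).filter fun k => b k = true).card * ∑ i ∈ range n, normSq (h (i + 1) - h i) := by
  induction n with
  | zero =>
    intro h b _ _
    simp
  | succ n ih =>
    intro h b hc hb
    by_cases hall : ∀ k < n + 1, b k = true
    · have e1 : ((range (n + 1)).filter fun k => b k = true) = range (n + 1) :=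
        Finset.filter_true_of_mem fun k hk => hall k (Finset.mem_range.1 hk)
      rw [e1, card_range]
      exact pbound (by omega) h hc
    · push Not at hall
      obtain ⟨k, hk, hkb⟩ := hall
      have hkb' : b k = false := by simpa using hkb
      have hstep := hb k hk hkb'
      have hkn : k ≤ n := by omega
      obtain ⟨g, hg⟩ : ∃ g : ℕ → ℕ, g = fun i => if i < k then i else i + 1 := ⟨_, rfl⟩
      -- the shorter polygon
      have key : ∀ i, h (g (i + 1)) = h (g i + 1) := by
        intro i
        rw [hg]
        simp only
        by_cases h1 : i < k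
        · rw [if_pos h1]
          by_cases h2 : i + 1 < k
          · rw [if_pos h2]
          · have h3 : i + 1 = k := by omega
            rw [if_neg h2, h3]
            exact hstep
        · rw [if_neg h1, if_neg (by omega)]
      have h4 := ih (fun i => h (g i)) (fun i => b (g i)) (by
          rw [hg]
          simp only
          rw [if_neg (by omega : ¬ n < k), hc]
          by_cases h1 : 0 < k
          · rw [if_pos h1]
          · rw [if_neg h1]
            have h2 : k = 0 := by omega
            rw [h2] at hstep
            exact hstep.symm) (fun i hi hbi => by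
          show h (g (i + 1)) = h (g i)
          rw [key i]
          apply hb
          · rw [hg]
            simp only
            split_ifs <;> omega
          · exact hbi)
      have e1 : ((range (n + 1)).filter fun k => b k = true).card = ((range n).filter fun i => b (g i) = true).card := by
        have h5 := sum_remove (fun i => if b i = true then (1 : ℝ) else 0) hkn (by simp [hkb'])
        rw [← Finset.sum_filter, ← Finset.sum_filter, Finset.sum_const, Finset.sum_const, nsmul_eq_mul, nsmul_eq_mul, mul_one, mul_one] at h5
        rw [hg]
        exact_mod_cast h5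
      have e2 : ∑ i ∈ range (n + 1), ((starRingEnd ℂ) (h i) * h (i + 1)).im = ∑ i ∈ range n, ((starRingEnd ℂ) (h (g i)) * h (g (i + 1))).im := by
        rw [sum_remove (fun i => ((starRingEnd ℂ) (h i) * h (i + 1)).im) hkn (by
          rw [hstep]
          simp only [mul_im, conj_re, conj_im]
          ring)]
        refine Finset.sum_congr rfl fun i _ => ?_
        have : (if i < k then i else i + 1) = g i := by rw [hg]
        rw [this, key i]
      have e3 : ∑ i ∈ range (n + 1), normSq (h (i + 1) - h i) = ∑ i ∈ range n, normSq (h (g (i + 1)) - h (g i)) := by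
        rw [sum_remove (fun i => normSq (h (i + 1) - h i)) hkn (by rw [hstep, sub_self, map_zero])]
        refine Finset.sum_congr rfl fun i _ => ?_
        have : (if i < k then i else i + 1) = g i := by rw [hg]
        rw [this, key i]
      rw [e1, e2, e3]
      exact h4

/-- The same on one cycle of a permutation. -/
theorem cyc_few {P : Type} (σ : Equiv.Perm P) (h : P → ℂ) (b : P → Bool) (hb : ∀ e, b e = false → h (σ e) = h e) (e : P) :
    |∑ k ∈ range (Function.minimalPeriod σ e), ((starRingEnd ℂ) (h ((σ ^ k) e)) * h ((σ ^ (k + 1)) e)).im| ≤
      bet ((range (Function.minimalPeriod σ e)).filter fun k => b ((σ ^ k) e) = true).card *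
        ∑ k ∈ range (Function.minimalPeriod σ e), normSq (h ((σ ^ (k + 1)) e) - h ((σ ^ k) e)) := by
  have hper : (σ ^ Function.minimalPeriod σ e) e = e := by
    rw [Equiv.Perm.coe_pow]
    exact Function.iterate_minimalPeriod
  refine few (Function.minimalPeriod σ e) (fun k => h ((σ ^ k) e)) (fun k => b ((σ ^ k) e)) (by simp only [hper, pow_zero, Equiv.Perm.one_apply])
    (fun k _ hk => ?_)
  simp only [pow_succ', Equiv.Perm.mul_apply]
  exact hb _ hk

end Pool.Agent.Helper57.VA
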