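import Pool.Agent.Helper57.VA.Main
import Pool.Agent.Helper60.S4.MixFinal

/-!
# The criterion with weights of the sides of the Seifert circles: final form and the case of at most three twist regions on one side
-/

set_option autoImplicit false

namespace Pool.Agent.Helper57.VA

open Complex Polynomial Pool.Agent.Helper85.Exp Pool.Agent.Helper60.EV2 Pool.Agent.Helper2.PD Pool.Agent.Helper43.Pln Pool.Agent.Helper2.V8B
  Pool.Agent.Helper60.S4 Pool.Agent.Helper57.S4
open Pool.Agent.Helper69.S4 (Sec)

variable {P : Type} [Fintype P] {G : Sh P}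

/-- **The criterion** with conditions only at the twist regions which lie on no rigid circle. -/
theorem mainRA (hG : Plane G) {α la : ℝ} (h0 : 0 ≤ α) (h1 : α ≤ 1) (hl0 : 0 ≤ la) (hl1 : la ≤ 1) {I : P → Prop} (hI : Bigons G I)
    {u v : P → ℝ} (hu : ∀ p, u (seifert G p) = u p) (hv : ∀ p, v (seifert G p) = v p) (hu0 : ∀ p, 0 ≤ u p) (hv0 : ∀ p, 0 ≤ v p)
    (huv : ∀ p, G.lf p = true → ¬ I p → ¬ Rigid G p → ¬ Rigid G (G.op p) → u p + v (G.op p) = la)
    (hw : ∀ p, G.lf p = true → ¬ I p → ¬ Rigid G p → ¬ Rigid G (G.op p) →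
      (1 - la) * (weight α G I p + weight α G I (G.op p)) + regw G I u v p ≤ (1 - la) * (√3 + 9 / 10 * α) + la / √3 ∧
      (Two G I p → (1 - la) * (weight α G I p + weight α G I (G.op p)) + regw G I u v p ≤ (1 - la) * (5 / 3 + α) + la / √3))
    {nab : Dg G → ℤ[X]} (hn : Cs nab) :
    LogConcave G nab ∧ ∀ z : ℂ, aeval z (nab (allPos G)) = 0 → 3 * z.re ^ 2 ≤ z.im ^ 2 :=
  (main_KA hG nab hn h0 h1 hl0 hl1 hI (Rigid G)
    (fun s hs0 hs hsec c hc a ha e he => by
      have hS : Sec s := ⟨hs0, hs, hsec⟩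
      have hC : Col G s c := fun x hx => hc ⟨x, hx⟩
      rcases ha with ha | ha | ha
      · exact loc11 hG.cross hS hC ha he
      · exact Pool.Agent.Helper76.S4.loc21 hG hS hC ha he
      · exact Pool.Agent.Helper29.LocP.locP hG hS hC ha he) u v hu hv hu0 hv0 huv hw).symm

theorem cot_three {r : ℕ} (h : r ≤ 3) : Real.cot (Real.pi / r) ≤ 1 / √3 := by
  have h3 : 0 < √3 := Real.sqrt_pos.2 (by norm_num)
  rw [Real.cot_eq_cos_div_sin]
  have : r = 0 ∨ r = 1 ∨ r = 2 ∨ r = 3 := by omega
  rcases this with rfl | rfl | rfl | rfl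
  · simp
  · simp
  · simp
  · have e : ((3 : ℕ) : ℝ) = 3 := by norm_num
    rw [e, Real.cos_pi_div_three, Real.sin_pi_div_three]
    apply le_of_eq
    field_simp

theorem inv_sqrt_nonneg : (0 : ℝ) ≤ 1 / √3 := by positivity

open Classical in
/-- **At most three twist regions on one side.** `A`: the circles with few twist regions on the right side, `B`: the circles with few twist regions on the left side. -/
theorem threeR (hG : Plane G) {I : P → Prop} (hI : Bigons G I) {A B : P → Prop} (hA : ∀ p, A (seifert G p) ↔ A p) (hB : ∀ p, B (seifert G p) ↔ B p)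
    (hAB : ∀ p, G.lf p = true → ¬ I p → ¬ Rigid G p → ¬ Rigid G (G.op p) → (B (G.op p) ↔ ¬ A p))
    (h3 : ∀ p, G.lf p = true → ¬ I p → ¬ Rigid G p → ¬ Rigid G (G.op p) → A p → Pool.Agent.Helper2.V8B.side G I true p ≤ 3)
    (h3' : ∀ p, G.lf p = true → ¬ I p → ¬ Rigid G p → ¬ Rigid G (G.op p) → ¬ A p → Pool.Agent.Helper2.V8B.side G I false (G.op p) ≤ 3)
    {nab : Dg G → ℤ[X]} (hn : Cs nab) :
    LogConcave G nab ∧ ∀ z : ℂ, aeval z (nab (allPos G)) = 0 → 3 * z.re ^ 2 ≤ z.im ^ 2 := by
  refine mainRA hG le_rfl zero_le_one zero_le_one le_rfl hI (u := fun p => if A p then 1 else 0) (v := fun p => if B p then 1 else 0)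
    (fun p => by simp only [hA]) (fun p => by simp only [hB]) (fun p => by show (0 : ℝ) ≤ if A p then 1 else 0; split_ifs <;> norm_num)
    (fun p => by show (0 : ℝ) ≤ if B p then 1 else 0; split_ifs <;> norm_num) ?_ ?_ hn
  · intro p hp hi hr hr'
    have h := hAB p hp hi hr hr'
    by_cases hAp : A p
    · have hB' : ¬ B (G.op p) := fun h' => h.1 h' hAp
      simp [hAp, hB']
    · have hB' : B (G.op p) := h.2 hAp
      simp [hAp, hB']
  · intro p hp hi hr hr'
    have h := hAB p hp hi hr hr'
    have key : regw G I (fun p => if A p then 1 else 0) (fun p => if B p then 1 else 0) p ≤ 1 / √3 := by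
      unfold regw
      by_cases hAp : A p
      · have hB' : ¬ B (G.op p) := fun h' => h.1 h' hAp
        simp only [hAp, hB', if_true, if_false]
        have := cot_three (h3 p hp hi hr hr' hAp)
        linarith
      · have hB' : B (G.op p) := h.2 hAp
        simp only [hAp, hB', if_true, if_false]
        have := cot_three (h3' p hp hi hr hr' hAp)
        linarith
    constructor
    · linarith
    · intro _
      linarith

end Pool.Agent.Helper57.VA
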