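import Mathlib

/-!
# The margin for the area form alone

`q = (1 + (-s²)^m) / (1 - (-s²)^m)` for a twist region of `m` crossings: outside the sector `|Re (v q)|` is greater than `|Im v| / √3`, `v = s + 1/s`.
-/

set_option autoImplicit false

namespace Pool.Agent.Helper57.VA

open Complex

theorem re_q (v w : ℂ) : (v * ((1 + w) / (1 - w))).re * normSq (1 - w) = v.re * (1 - normSq w) - 2 * v.im * w.im := by
  by_cases h : (1 : ℂ) - w = 0
  · have h1 : w = 1 := by linear_combination -h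
    rw [h1]
    simp
  · have h2 : normSq (1 - w) ≠ 0 := fun e => h (normSq_eq_zero.1 e)
    have h3 : (v * ((1 + w) / (1 - w))) * ((normSq (1 - w) : ℝ) : ℂ) = v * (1 + w) * (starRingEnd ℂ) (1 - w) := by
      rw [← mul_conj]
      field_simp
    have h4 := congrArg Complex.re h3
    rw [re_mul_ofReal] at h4
    rw [h4]
    simp only [mul_re, mul_im, add_re, add_im, sub_re, sub_im, one_re, one_im, map_sub, map_one, conj_re, conj_im, normSq_apply]
    ring

/-- The polynomial inequality. -/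
theorem poly_ineq {n W : ℝ} (hn0 : 0 < n) (hn1 : n < 1) (hW0 : 0 ≤ W) (hW : W ≤ n ^ 2) :
    (1 - n) ^ 2 * (3.4642 * W + (1 + W) ^ 2) ≤ (1 + n) ^ 2 * (1 - W ^ 2) := by
  have h1 : (1 - n) ^ 2 * (3.4642 * W + (1 + W) ^ 2) ≤ (1 - n) ^ 2 * (3.4642 * n ^ 2 + (1 + n ^ 2) ^ 2) := by
    apply mul_le_mul_of_nonneg_left _ (sq_nonneg _)
    nlinarith
  have h2 : (1 + n) ^ 2 * (1 - (n ^ 2) ^ 2) ≤ (1 + n) ^ 2 * (1 - W ^ 2) := by
    apply mul_le_mul_of_nonneg_left _ (sq_nonneg _)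
    nlinarith
  refine h1.trans (le_trans ?_ h2)
  have h3 : (1 + n) ^ 2 * (1 - (n ^ 2) ^ 2) - (1 - n) ^ 2 * (3.4642 * n ^ 2 + (1 + n ^ 2) ^ 2) =
      (1 - n) * n * (4 - 1.4642 * n + 9.4642 * n ^ 2 + 2 * n ^ 3 + 2 * n ^ 4) := by ring
  have h4 : 0 ≤ (1 - n) * n * (4 - 1.4642 * n + 9.4642 * n ^ 2 + 2 * n ^ 3 + 2 * n ^ 4) := by
    have h5 : 0 ≤ n ^ 3 := by positivity
    have h6 : 0 ≤ n ^ 4 := by positivity
    apply mul_nonneg (mul_nonneg (by linarith) hn0.le)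
    nlinarith [sq_nonneg n]
  linarith

/-- **The margin.** -/
theorem margin_A {s : ℂ} (hs0 : s ≠ 0) (hs : ‖s‖ < 1) (hsec : (s⁻¹ - s).im ^ 2 < 3 * (s⁻¹ - s).re ^ 2) {m : ℕ} (hm : 0 < m) :
    |(s + s⁻¹).im| / √3 < (if 0 ≤ s.re then 1 else -1) * ((s + s⁻¹) * ((1 + (-s ^ 2) ^ m) / (1 - (-s ^ 2) ^ m))).re := by
  obtain ⟨n, hn⟩ : ∃ n, n = normSq s := ⟨_, rfl⟩
  have hn0 : 0 < n := by rw [hn]; exact normSq_pos.2 hs0
  have hn1 : n < 1 := by
    rw [hn, normSq_eq_norm_sq]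
    nlinarith [norm_nonneg s]
  obtain ⟨σ, hσ⟩ : ∃ σ : ℝ, σ = if 0 ≤ s.re then 1 else -1 := ⟨_, rfl⟩
  rw [← hσ]
  obtain ⟨A, hA⟩ : ∃ A, A = |s.re| := ⟨_, rfl⟩
  obtain ⟨B, hB⟩ : ∃ B, B = |s.im| := ⟨_, rfl⟩
  have hA0 : 0 ≤ A := by rw [hA]; exact abs_nonneg _
  have hB0 : 0 ≤ B := by rw [hB]; exact abs_nonneg _
  have hσA : σ * s.re = A := by
    rw [hσ, hA]
    split_ifs with h
    · rw [one_mul, abs_of_nonneg h]
    · rw [abs_of_neg (by linarith)]
      ring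
  have hσ1 : |σ| = 1 := by
    rw [hσ]
    split_ifs <;> simp
  have h3 : (0 : ℝ) < √3 := Real.sqrt_pos.2 (by norm_num)
  have h33 : √3 * √3 = 3 := Real.mul_self_sqrt (by norm_num)
  have h3u : √3 ≤ 1.7321 := by
    rw [Real.sqrt_le_left (by norm_num)]
    norm_num
  have hvre : (s + s⁻¹).re = s.re * (1 + n) / n := by
    rw [add_re, inv_re, ← hn]
    field_simp
    ring
  have hvim : (s + s⁻¹).im = -(s.im * (1 - n) / n) := by
    rw [add_im, inv_im, ← hn]
    field_simp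
    ring
  have hzre : (s⁻¹ - s).re = s.re * (1 - n) / n := by
    rw [sub_re, inv_re, ← hn]
    field_simp
  have hzim : (s⁻¹ - s).im = -(s.im * (1 + n) / n) := by
    rw [sub_im, inv_im, ← hn]
    field_simp
    ring
  have hvabs : |(s + s⁻¹).im| = B * (1 - n) / n := by
    rw [hvim, abs_neg, abs_div, abs_mul, abs_of_pos hn0, abs_of_pos (by linarith : 0 < 1 - n), hB]
  -- the sector
  obtain ⟨y, hy⟩ : ∃ y, y = B / √3 := ⟨_, rfl⟩
  have hy0 : 0 ≤ y := by rw [hy]; positivity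
  have hBy : B = √3 * y := by rw [hy]; field_simp
  have hsec' : y * (1 + n) < A * (1 - n) := by
    rw [hzre, hzim] at hsec
    have e1 : (-(s.im * (1 + n) / n)) ^ 2 = (B * (1 + n)) ^ 2 / n ^ 2 := by
      rw [hB, mul_pow, sq_abs]
      ring
    have e2 : 3 * (s.re * (1 - n) / n) ^ 2 = 3 * (A * (1 - n)) ^ 2 / n ^ 2 := by
      rw [hA, mul_pow |s.re|, sq_abs]
      ring
    rw [e1, e2, div_lt_div_iff_of_pos_right (by positivity)] at hsec
    have e3 : (B * (1 + n)) ^ 2 = 3 * (y * (1 + n)) ^ 2 := by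
      rw [hBy]
      linear_combination (y * (1 + n)) ^ 2 * h33
    rw [e3] at hsec
    have h5 : 0 ≤ A * (1 - n) := mul_nonneg hA0 (by linarith)
    exact lt_of_pow_lt_pow_left₀ 2 h5 (by linarith)
  have hyA : y < A := by nlinarith
  have hAp : 0 < A := by linarith
  rcases Nat.lt_or_ge 1 m with h2 | h2
  · -- at least two crossings
    obtain ⟨w, hw⟩ : ∃ w, w = (-s ^ 2) ^ m := ⟨_, rfl⟩
    obtain ⟨W, hW⟩ : ∃ W, W = ‖w‖ := ⟨_, rfl⟩
    rw [← hw]
    have hWn : W = n ^ m := by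
      rw [hW, hw, norm_pow, norm_neg, norm_pow, ← normSq_eq_norm_sq, ← hn]
    have hW0 : 0 ≤ W := by rw [hW]; exact norm_nonneg _
    have hW2 : W ≤ n ^ 2 := by
      rw [hWn]
      exact pow_le_pow_of_le_one hn0.le hn1.le h2
    have hW1 : W < 1 := lt_of_le_of_lt hW2 (by nlinarith)
    have hwn : normSq w = W ^ 2 := by rw [hW, normSq_eq_norm_sq]
    have hD : normSq (1 - w) ≤ (1 + W) ^ 2 := by
      rw [normSq_eq_norm_sq]
      refine pow_le_pow_left₀ (norm_nonneg _) ?_ 2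
      calc ‖1 - w‖ ≤ ‖(1 : ℂ)‖ + ‖w‖ := norm_sub_le _ _
        _ = 1 + W := by rw [norm_one, hW]
    have hD0 : 0 < normSq (1 - w) := by
      refine normSq_pos.2 fun h => ?_
      have : w = 1 := by linear_combination -h
      rw [this, norm_one] at hW
      linarith
    have him : |w.im| ≤ W := by rw [hW]; exact abs_im_le_norm w
    have h6 := re_q (s + s⁻¹) w
    rw [hwn] at h6
    refine lt_of_mul_lt_mul_right ?_ hD0.le
    have h7 : |(s + s⁻¹).im| / √3 * normSq (1 - w) ≤ y * (1 - n) / n * (1 + W) ^ 2 := by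
      have e : |(s + s⁻¹).im| / √3 = y * (1 - n) / n := by
        rw [hvabs, hBy]
        field_simp
      rw [e]
      exact mul_le_mul_of_nonneg_left hD (div_nonneg (mul_nonneg hy0 (by linarith)) hn0.le)
    have h8 : σ * ((s + s⁻¹).re * (1 - W ^ 2) - 2 * (s + s⁻¹).im * w.im) ≥ A * (1 + n) / n * (1 - W ^ 2) - 2 * (√3 * y * (1 - n) / n) * W := by
      have e1 : σ * ((s + s⁻¹).re * (1 - W ^ 2) - 2 * (s + s⁻¹).im * w.im) =
          σ * s.re * (1 + n) / n * (1 - W ^ 2) - 2 * (σ * ((s + s⁻¹).im * w.im)) := by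
        rw [hvre]
        ring
      have e2 : σ * ((s + s⁻¹).im * w.im) ≤ √3 * y * (1 - n) / n * W := by
        refine (le_abs_self _).trans ?_
        rw [abs_mul, hσ1, one_mul, abs_mul, hvabs, ← hBy]
        exact mul_le_mul_of_nonneg_left him (div_nonneg (mul_nonneg hB0 (by linarith)) hn0.le)
      rw [e1, hσA]
      linarith
    have h9 : y * (1 - n) / n * (1 + W) ^ 2 < A * (1 + n) / n * (1 - W ^ 2) - 2 * (√3 * y * (1 - n) / n) * W := by
      have h10 := poly_ineq hn0 hn1 hW0 hW2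
      have h11 : y * (1 - n) * (3.4642 * W + (1 + W) ^ 2) < A * (1 + n) * (1 - W ^ 2) := by
        have k0 : 0 < 3.4642 * W + (1 + W) ^ 2 := by positivity
        have k1 : y * (1 + n) * ((1 - n) * (3.4642 * W + (1 + W) ^ 2)) < A * (1 - n) * ((1 - n) * (3.4642 * W + (1 + W) ^ 2)) :=
          mul_lt_mul_of_pos_right hsec' (mul_pos (by linarith) k0)
        have k2 : A * ((1 - n) ^ 2 * (3.4642 * W + (1 + W) ^ 2)) ≤ A * ((1 + n) ^ 2 * (1 - W ^ 2)) := mul_le_mul_of_nonneg_left h10 hA0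
        have k3 : (1 + n) * (y * (1 - n) * (3.4642 * W + (1 + W) ^ 2)) < (1 + n) * (A * (1 + n) * (1 - W ^ 2)) := by
          calc (1 + n) * (y * (1 - n) * (3.4642 * W + (1 + W) ^ 2)) = y * (1 + n) * ((1 - n) * (3.4642 * W + (1 + W) ^ 2)) := by ring
            _ < A * (1 - n) * ((1 - n) * (3.4642 * W + (1 + W) ^ 2)) := k1
            _ = A * ((1 - n) ^ 2 * (3.4642 * W + (1 + W) ^ 2)) := by ring
            _ ≤ A * ((1 + n) ^ 2 * (1 - W ^ 2)) := k2
            _ = (1 + n) * (A * (1 + n) * (1 - W ^ 2)) := by ring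
        exact lt_of_mul_lt_mul_left k3 (by linarith)
      have h12 : y * (1 - n) * ((1 + W) ^ 2 + 2 * √3 * W) ≤ y * (1 - n) * (3.4642 * W + (1 + W) ^ 2) := by
        apply mul_le_mul_of_nonneg_left _ (mul_nonneg hy0 (by linarith))
        nlinarith
      have h13 : y * (1 - n) * ((1 + W) ^ 2 + 2 * √3 * W) < A * (1 + n) * (1 - W ^ 2) := lt_of_le_of_lt h12 h11
      have e1 : y * (1 - n) / n * (1 + W) ^ 2 + 2 * (√3 * y * (1 - n) / n) * W = y * (1 - n) * ((1 + W) ^ 2 + 2 * √3 * W) / n := by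
        field_simp
      have e2 : A * (1 + n) / n * (1 - W ^ 2) = A * (1 + n) * (1 - W ^ 2) / n := by ring
      have h14 := div_lt_div_of_pos_right h13 hn0
      linarith
    calc |(s + s⁻¹).im| / √3 * normSq (1 - w) ≤ _ := h7
      _ < _ := h9
      _ ≤ σ * ((s + s⁻¹).re * (1 - W ^ 2) - 2 * (s + s⁻¹).im * w.im) := h8
      _ = σ * ((s + s⁻¹) * ((1 + w) / (1 - w))).re * normSq (1 - w) := by rw [← h6]; ring
  · -- one crossing
    have hm1 : m = 1 := by omega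
    rw [hm1, pow_one]
    have hne : (1 : ℂ) - -s ^ 2 ≠ 0 := by
      intro h
      have h1 : s ^ 2 = -1 := by linear_combination h
      have h4 : ‖s‖ ^ 2 = 1 := by rw [← norm_pow, h1, norm_neg, norm_one]
      nlinarith [norm_nonneg s]
    have e1 : (s + s⁻¹) * ((1 + -s ^ 2) / (1 - -s ^ 2)) = s⁻¹ - s := by
      field_simp
      ring
    rw [e1, hzre, hvabs, hBy, show σ * (s.re * (1 - n) / n) = (σ * s.re) * (1 - n) / n by ring, hσA]
    have e2 : √3 * y * (1 - n) / n / √3 = y * (1 - n) / n := by field_simp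
    rw [e2]
    exact div_lt_div_of_pos_right (mul_lt_mul_of_pos_right hyA (by linarith)) hn0

end Pool.Agent.Helper57.VA
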