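import Pool.Agent.Helper57.VA.Zero
import Pool.Agent.Helper57.VA.Margin
import Pool.Agent.Helper2.V8B.Main
import Pool.Agent.Helper30.VQ.Block

/-!
# The criterion with twist regions and weights of the sides of the Seifert circles
-/

set_option autoImplicit false

namespace Pool.Agent.Helper57.VA

open Complex Finset Polynomial Pool.Agent.Helper85.Exp Pool.Agent.Helper60.EV2 Pool.Agent.Helper2.PD Pool.Agent.Helper16.PD Pool.Agent.Helper43.Pln
  Pool.Agent.Helper30.VQ Pool.Agent.Helper2.V8B Pool.Agent.Helper59.V8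

variable {P : Type} {G : Sh P}

theorem side_congr {I : P → Prop} {b : Bool} {p q : P} (h : (seifert G).SameCycle p q) : Pool.Agent.Helper2.V8B.side G I b p = Pool.Agent.Helper2.V8B.side G I b q := by
  unfold Pool.Agent.Helper2.V8B.side
  refine Nat.card_congr (Equiv.subtypeEquivRight fun x => ?_)
  constructor
  · rintro ⟨h1, h2⟩
    exact ⟨h.symm.trans h1, h2⟩
  · rintro ⟨h1, h2⟩
    exact ⟨h.trans h1, h2⟩

/-- The weight of a twist region on the right side of the circle of `p` and on the left side of the circle of `op p`. -/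
noncomputable def regw (G : Sh P) (I : P → Prop) (u v : P → ℝ) (p : P) : ℝ :=
  u p * Real.cot (Real.pi / Pool.Agent.Helper2.V8B.side G I true p) + v (G.op p) * Real.cot (Real.pi / Pool.Agent.Helper2.V8B.side G I false (G.op p))

variable [Fintype P]

theorem same_rp {I : P → Prop} (e : {p // ¬ I p}) : (seifert G).SameCycle (e : P) (rp (seifert G) (fun p => ¬ I p) e : {p // ¬ I p}) := by
  refine ⟨(rt (seifert G) (fun p => ¬ I p) e : ℤ), ?_⟩
  rw [zpow_natCast]
  rfl

theorem const_same {u : P → ℝ} (hu : ∀ p, u (seifert G p) = u p) {p q : P} (h : (seifert G).SameCycle p q) : u q = u p := by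
  obtain ⟨k, rfl⟩ := h.exists_nat_pow_eq
  clear h
  induction k with
  | zero => rfl
  | succ k ih => rw [pow_succ', Equiv.Perm.mul_apply, hu, ih]

/-- **No colouring outside the sector.** `K`: circles on which the colouring is constant. -/
theorem zero_TA (hG : Plane G) {s : ℂ} (hs0 : s ≠ 0) (hs : ‖s‖ < 1)
    {α la : ℝ} (h0 : 0 ≤ α) (h1 : α ≤ 1) (hl0 : 0 ≤ la) (hl1 : la ≤ 1) {I : P → Prop} (hI : Bigons G I)
    (hmar : ∀ m : ℕ, 0 < m → (if m = 2 then 5 / 3 + α else √3 + 9 / 10 * α) * |(s + s⁻¹).im| <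
      normSq (s + s⁻¹) / 2 * ((1 + (-s ^ 2) ^ m) / (1 - (-s ^ 2) ^ m)).re +
        α * ((if 0 ≤ s.re then 1 else -1) * ((s + s⁻¹) * ((1 + (-s ^ 2) ^ m) / (1 - (-s ^ 2) ^ m))).re))
    (hmarA : ∀ m : ℕ, 0 < m → |(s + s⁻¹).im| / √3 < (if 0 ≤ s.re then 1 else -1) * ((s + s⁻¹) * ((1 + (-s ^ 2) ^ m) / (1 - (-s ^ 2) ^ m))).re)
    {c : Face G → ℂ} (hc : ∀ x : Cr G, c (Rf G x.1) + s ^ 2 * c (Lf G (G.nxt.symm x.1)) = s * (c (Lf G x.1) + c (Rf G (G.op x.1))))
    (K : P → Prop) (hK : ∀ a, K a → ∀ e, (seifert G).SameCycle a e → c (Lf G (seifert G e)) = c (Lf G e) ∧ c (Rf G (seifert G e)) = c (Rf G e))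
    (u v : P → ℝ) (hu : ∀ p, u (seifert G p) = u p) (hv : ∀ p, v (seifert G p) = v p) (hu0 : ∀ p, 0 ≤ u p) (hv0 : ∀ p, 0 ≤ v p)
    (huv : ∀ p, G.lf p = true → ¬ I p → ¬ K p → ¬ K (G.op p) → u p + v (G.op p) = la)
    (hw : ∀ p, G.lf p = true → ¬ I p → ¬ K p → ¬ K (G.op p) →
      (1 - la) * (weight α G I p + weight α G I (G.op p)) + regw G I u v p ≤ (1 - la) * (√3 + 9 / 10 * α) + la / √3 ∧
      (Two G I p → (1 - la) * (weight α G I p + weight α G I (G.op p)) + regw G I u v p ≤ (1 - la) * (5 / 3 + α) + la / √3))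
    (b : P) (hb1 : c (Lf G b) = 0) (hb2 : c (Rf G b) = 0) :
    ∀ f, c f = 0 := by
  classical
  have ho := hG.cross
  set W := ofG ho c with hW
  have hp := pos_ofG ho hc
  have hB := blk_ofG ho c hI
  -- constancy on the circles in K
  have hKc : ∀ a, K a → ∀ (k : ℕ) (e : P), (seifert G).SameCycle a e → c (Lf G (((seifert G) ^ k) e)) = c (Lf G e) ∧
      c (Rf G (((seifert G) ^ k) e)) = c (Rf G e) := by
    intro a ha k e he
    induction k with
    | zero => exact ⟨rfl, rfl⟩
    | succ k ih =>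
      have h2 := hK a ha (((seifert G) ^ k) e) (he.trans ⟨(k : ℤ), by rw [zpow_natCast]⟩)
      rw [pow_succ', Equiv.Perm.mul_apply]
      exact ⟨h2.1.trans ih.1, h2.2.trans ih.2⟩
  have hr : ∀ x : {p // ¬ I p}, (1 : ℂ) - (-s ^ 2) ^ Ws.Blk.len W I x ≠ 0 := fun x h =>
    Ws.Blk.rho_pow_ne hs (Ws.Blk.len_pos x) (by linear_combination -h)
  -- no constant circle at a crossing with two different values
  have hKne : ∀ x : {p // ¬ I p}, hB.ct.lf x = true → hB.ct.R x ≠ hB.ct.R (hB.ct.sg.symm x) → ¬ K x ∧ ¬ K (G.op x) := by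
    intro x hx hne
    -- the block before `x`
    obtain ⟨q, hq⟩ := (rp (seifert G) (fun p => ¬ I p)).surjective x
    have hq' : hB.ct.sg.symm x = q := by
      rw [← hq]
      exact Equiv.symm_apply_apply _ _
    have hxq : (x : P) = ((seifert G) ^ rt (seifert G) (fun p => ¬ I p) q) q := by
      rw [← hq]
      rfl
    have hsame : (seifert G).SameCycle x q := by
      refine Equiv.Perm.SameCycle.symm ⟨(rt (seifert G) (fun p => ¬ I p) q : ℤ), ?_⟩
      rw [zpow_natCast]
      exact hxq.symm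
    constructor
    · intro h
      apply hne
      rw [hq']
      show c (Rf G x) = c (Rf G q)
      have h2 := (hKc x h (rt (seifert G) (fun p => ¬ I p) q) q hsame).2
      rw [← hxq] at h2
      exact h2
    · intro h
      apply hne
      have h5 := hB.ct.north x hx
      have h6 := hB.ct.south x hx
      rw [h5, h6]
      obtain ⟨q2, hq2⟩ := (rp (seifert G) (fun p => ¬ I p)).surjective (hB.ct.op x)
      have hq2' : hB.ct.sg.symm (hB.ct.op x) = q2 := by
        rw [← hq2]
        exact Equiv.symm_apply_apply _ _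
      have hxq2 : G.op x = ((seifert G) ^ rt (seifert G) (fun p => ¬ I p) q2) q2 := by
        have : (hB.ct.op x : P) = (rp (seifert G) (fun p => ¬ I p) q2 : {p // ¬ I p}) := by rw [hq2]
        exact this
      have hsame2 : (seifert G).SameCycle (G.op x) q2 := by
        refine Equiv.Perm.SameCycle.symm ⟨(rt (seifert G) (fun p => ¬ I p) q2 : ℤ), ?_⟩
        rw [zpow_natCast]
        exact hxq2.symm
      rw [hq2']
      show c (Lf G (G.op x)) = c (Lf G q2)
      have h2 := (hKc (G.op x) h (rt (seifert G) (fun p => ¬ I p) q2) q2 hsame2).1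
      rw [← hxq2] at h2
      exact h2
  have hlst : ∀ e : {p // ¬ I p}, lst G I e = !G.lf (rp (seifert G) (fun p => ¬ I p) e : {p // ¬ I p}) := fun e => rfl
  have east : ∀ e : {p // ¬ I p}, lst G I e = true → hB.ct.R (hB.ct.sg e) = hB.ct.R e := by
    intro e he
    have he' : G.lf (rp (seifert G) (fun p => ¬ I p) e : {p // ¬ I p}) = false := by
      rw [hlst] at he
      simpa using he
    exact Ws.east' (W := hB.ct) (p := e) he'
  have west : ∀ e : {p // ¬ I p}, lst G I e = false → hB.ct.L (hB.ct.sg e) = hB.ct.L e := by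
    intro e he
    have he' : G.lf (rp (seifert G) (fun p => ¬ I p) e : {p // ¬ I p}) = true := by
      rw [hlst] at he
      simpa using he
    exact Ws.west' (W := hB.ct) (p := e) he'
  have hy := area_le (W := hB.ct) (fun e => u e) (fun e => v e) (fun e => const_same hu (same_rp e)) (fun e => const_same hv (same_rp e))
    (fun e => hu0 e) (fun e => hv0 e) (fun e => bet (Pool.Agent.Helper2.V8B.side G I true e)) (fun e => bet (Pool.Agent.Helper2.V8B.side G I false e))
    (fun e => congrArg bet (side_congr (same_rp e)).symm) (fun e => congrArg bet (side_congr (same_rp e)).symm)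
    (fun e => by
      have h2 := cyc_few (rp (seifert G) (fun p => ¬ I p)) hB.ct.R (fun e => !(lst G I e)) (fun e he => east e (by simpa using he)) e
      have h3 : ((range (Function.minimalPeriod (rp (seifert G) (fun p => ¬ I p)) e)).filter fun k =>
          (!(lst G I (((rp (seifert G) (fun p => ¬ I p)) ^ k) e))) = true).card = Pool.Agent.Helper2.V8B.side G I true e := by
        rw [← nR_eq]
        unfold nR
        refine congrArg Finset.card (Finset.filter_congr fun k _ => ?_)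
        simp
      rw [h3] at h2
      exact h2)
    (fun e => by
      have h2 := cyc_few (rp (seifert G) (fun p => ¬ I p)) hB.ct.L (lst G I) (fun e he => west e he) e
      have h3 : ((range (Function.minimalPeriod (rp (seifert G) (fun p => ¬ I p)) e)).filter fun k =>
          (lst G I (((rp (seifert G) (fun p => ¬ I p)) ^ k) e)) = true).card = Pool.Agent.Helper2.V8B.side G I false e := by
        rw [← nL_eq]
        rfl
      rw [h3] at h2
      exact h2)
    hl0 (fun x hx hne => by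
      obtain ⟨k1, k2⟩ := hKne x hx hne
      exact huv x hx x.2 k1 k2)
  have hz : ∀ x : {p // ¬ I p}, hB.ct.lf x = true → hB.ct.R x = hB.ct.R (hB.ct.sg.symm x) := by
    refine zero_ofA (W := hB.ct) hs0 (fun x => (1 + (-s ^ 2) ^ Ws.Blk.len W I x) / (1 - (-s ^ 2) ^ Ws.Blk.len W I x)) ?_ h0
      (sub_nonneg.2 hl1) hl0
      (wt α (rp (seifert G) (fun p => ¬ I p)) (lst G I)) (fun e => wt_apply (α := α) (rp (seifert G) (fun p => ¬ I p)) (lst G I) e) ?_
      _ hy (σ := if 0 ≤ s.re then 1 else -1) (by split_ifs <;> simp) ?_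
    · intro x hx
      have h2 := hB.block hp x hx
      have h3 := hr x
      refine mul_right_cancel₀ h3 ?_
      have h4 : ((1 + (-s ^ 2) ^ Ws.Blk.len W I x) / (1 - (-s ^ 2) ^ Ws.Blk.len W I x)) * (1 - (-s ^ 2) ^ Ws.Blk.len W I x) =
          1 + (-s ^ 2) ^ Ws.Blk.len W I x := div_mul_cancel₀ _ h3
      linear_combination 2 * h2 - (1 + s ^ 2) * (hB.ct.R x - hB.ct.R (hB.ct.sg.symm x)) * h4
    · intro e
      exact cycle_wt h0 h1 (rp (seifert G) (fun p => ¬ I p)) hB.ct.L hB.ct.R (lst G I) east west e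
    · intro x hx hne
      have hx' : G.lf x = true := hx
      obtain ⟨hK1, hK2⟩ := hKne x hx hne
      have hw1 := hw x hx' x.2 hK1 hK2
      have e1 := wt_eq (G := G) α x
      have e2 := wt_eq (G := G) α (hB.ct.op x)
      have e3 : ((hB.ct.op x : {p // ¬ I p}) : P) = G.op x := rfl
      rw [e3] at e2
      rw [e1, e2]
      have e4 : 2 * (u x * bet (Pool.Agent.Helper2.V8B.side G I true (x : P)) +
          v (hB.ct.op x) * bet (Pool.Agent.Helper2.V8B.side G I false (hB.ct.op x))) = regw G I u v x := by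
        rw [e3]
        unfold regw bet
        ring
      rw [e4]
      have hm := hmar (Ws.Blk.len W I x) (Ws.Blk.len_pos x)
      have hmA := hmarA (Ws.Blk.len W I x) (Ws.Blk.len_pos x)
      have hC : (1 - la) * (weight α G I x + weight α G I (G.op x)) + regw G I u v x ≤
          (1 - la) * (if Ws.Blk.len W I x = 2 then 5 / 3 + α else √3 + 9 / 10 * α) + la / √3 := by
        split_ifs with h2
        · exact hw1.2 (Ws.Blk.len_two h2)
        · exact hw1.1
      have h5 := mul_le_mul_of_nonneg_right hC (abs_nonneg (s + s⁻¹).im)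
      refine lt_of_le_of_lt h5 ?_
      have h6 : ((1 - la) * (if Ws.Blk.len W I x = 2 then 5 / 3 + α else √3 + 9 / 10 * α) + la / √3) * |(s + s⁻¹).im| =
          (1 - la) * ((if Ws.Blk.len W I x = 2 then 5 / 3 + α else √3 + 9 / 10 * α) * |(s + s⁻¹).im|) + la * (|(s + s⁻¹).im| / √3) := by
        ring
      rw [h6]
      rcases hl0.eq_or_lt with h7 | h7
      · rw [← h7]
        linarith
      · have h8 := mul_lt_mul_of_pos_left hmA h7
        have h9 := mul_le_mul_of_nonneg_left hm.le (sub_nonneg.2 hl1)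
        linarith
  have hall : ∀ x : Cr G, c (Rf G x.1) = c (Lf G (G.nxt.symm x.1)) := by
    intro x
    have h2 := hB.all_of hs hp hz (p := x.1) x.2
    have h3 := (ofG ho c).south x.1 x.2
    rw [h3] at h2
    have h4 : (ofG ho c).L ((ofG ho c).sg.symm ((ofG ho c).op x.1)) = c (Lf G (G.nxt.symm x.1)) := by
      show c (Lf G (G.nxt.symm (G.op (G.op x.1)))) = _
      rw [G.op_op]
    rw [h4] at h2
    exact h2
  exact Pool.Agent.Helper59.V8.zero_of_const ho hG.conn c s hs0 hc hall b hb1 hb2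

/-- **The criterion**, with a set `K` of circles on which all colourings are constant. -/
theorem main_KA (hG : Plane G) (nab : Dg G → ℤ[X]) (hn : Cs nab) {α la : ℝ} (h0 : 0 ≤ α) (h1 : α ≤ 1) (hl0 : 0 ≤ la) (hl1 : la ≤ 1)
    {I : P → Prop} (hI : Bigons G I) (K : P → Prop)
    (hK : ∀ s : ℂ, s ≠ 0 → ‖s‖ < 1 → (s⁻¹ - s).im ^ 2 < 3 * (s⁻¹ - s).re ^ 2 → ∀ c : Face G → ℂ,
      (∀ x : Cr G, c (Rf G x.1) + s ^ 2 * c (Lf G (G.nxt.symm x.1)) = s * (c (Lf G x.1) + c (Rf G (G.op x.1)))) →
      ∀ a, K a → ∀ e, (seifert G).SameCycle a e → c (Lf G (seifert G e)) = c (Lf G e) ∧ c (Rf G (seifert G e)) = c (Rf G e))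
    (u v : P → ℝ) (hu : ∀ p, u (seifert G p) = u p) (hv : ∀ p, v (seifert G p) = v p) (hu0 : ∀ p, 0 ≤ u p) (hv0 : ∀ p, 0 ≤ v p)
    (huv : ∀ p, G.lf p = true → ¬ I p → ¬ K p → ¬ K (G.op p) → u p + v (G.op p) = la)
    (hw : ∀ p, G.lf p = true → ¬ I p → ¬ K p → ¬ K (G.op p) →
      (1 - la) * (weight α G I p + weight α G I (G.op p)) + regw G I u v p ≤ (1 - la) * (√3 + 9 / 10 * α) + la / √3 ∧
      (Two G I p → (1 - la) * (weight α G I p + weight α G I (G.op p)) + regw G I u v p ≤ (1 - la) * (5 / 3 + α) + la / √3)) :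
    (∀ z : ℂ, aeval z (nab (allPos G)) = 0 → 3 * z.re ^ 2 ≤ z.im ^ 2) ∧ LogConcave G nab := by
  have key : ∀ z : ℂ, aeval z (nab (allPos G)) = 0 → 3 * z.re ^ 2 ≤ z.im ^ 2 := by
    intro z hz
    by_contra hcon
    push Not at hcon
    obtain ⟨s, hs0, hs, rfl⟩ := Pool.Agent.Helper2.V8B.exists_s hcon
    obtain ⟨b⟩ := nonempty_of hG
    obtain ⟨c, ⟨f, hf⟩, hc1, hc2, hc⟩ := Pool.Agent.Helper59.V8.exists_col hG nab hn hs0 hz b
    exact hf (zero_TA hG hs0 hs h0 h1 hl0 hl1 hI (fun m hm => Pool.Agent.Helper30.VQ.margin hs0 hs hcon h0 h1 hm)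
      (fun m hm => margin_A hs0 hs hcon hm) hc K (hK s hs0 hs hcon c hc) u v hu hv hu0 hv0 huv hw _ hc1 hc2 f)
  exact ⟨key, Pool.Agent.Helper59.V8.lc_of_sector hG nab hn key⟩

end Pool.Agent.Helper57.VA
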