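import Pool.Agent.Helper57.VA.Few
import Pool.Agent.Helper2.V8B.Sums

/-!
# The lens with weights of the regions

The crossing `x` (`lf x = true`) has the values `N = R x`, `S = R (sg⁻¹ x)`, `W = L x`, `E = R (op x)`, and the relation
`2 s (W + E) = (1 + s²) (N + S + q (N - S))` with a coefficient `q = q x`. The area `Σ Im (conj S * N)` is the sum of the areas of the polygons on the right sides of
the circles and of the polygons on the left sides, with weights `u`, `v` of the circles such that `u x + v (op x) = 1` at every crossing with `N ≠ S`.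
-/

set_option autoImplicit false

namespace Pool.Agent.Helper57.VA

open Complex Finset Pool.Agent.Helper59.V8 Pool.Agent.Helper2.V8B

variable {P : Type} [Fintype P]

/-- From the cycles of a permutation to the whole set. -/
theorem perm_area (σ : Equiv.Perm P) (h : P → ℂ) (u : P → ℝ) (hu : ∀ e, u (σ e) = u e) (hu0 : ∀ e, 0 ≤ u e) (w : P → ℝ) (hw : ∀ e, w (σ e) = w e)
    (hb : ∀ e, |∑ k ∈ range (Function.minimalPeriod σ e), ((starRingEnd ℂ) (h ((σ ^ k) e)) * h ((σ ^ (k + 1)) e)).im| ≤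
      w e * ∑ k ∈ range (Function.minimalPeriod σ e), normSq (h ((σ ^ (k + 1)) e) - h ((σ ^ k) e))) :
    |∑ e, u e * ((starRingEnd ℂ) (h e) * h (σ e)).im| ≤ ∑ e, (u e * w e) * normSq (h (σ e) - h e) := by
  have hs : ∀ e (k : ℕ), u ((σ ^ k) e) = u e := by
    intro e k
    induction k with
    | zero => rfl
    | succ k ih => rw [pow_succ', Equiv.Perm.mul_apply, hu, ih]
  have hq : ∀ e, (√(u e)) ^ 2 = u e := fun e => Real.sq_sqrt (hu0 e)
  have h1 := perm_bound_of σ (fun _ => 0) (fun e => ((√(u e) : ℝ) : ℂ) * h e) (α := 1) zero_le_one w hw (fun e => by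
    have e1 : ∀ k : ℕ, fj 0 (((√(u ((σ ^ k) e)) : ℝ) : ℂ) * h ((σ ^ k) e)) 0 (((√(u ((σ ^ (k + 1)) e)) : ℝ) : ℂ) * h ((σ ^ (k + 1)) e)) = 0 := by
      intro k
      unfold fj
      simp
    have e2 : ∀ k : ℕ, fa 0 (((√(u ((σ ^ k) e)) : ℝ) : ℂ) * h ((σ ^ k) e)) 0 (((√(u ((σ ^ (k + 1)) e)) : ℝ) : ℂ) * h ((σ ^ (k + 1)) e)) =
        u e * ((starRingEnd ℂ) (h ((σ ^ k) e)) * h ((σ ^ (k + 1)) e)).im := by
      intro k
      rw [hs, hs]
      unfold fa
      rw [map_zero, zero_mul, zero_im, zero_add, map_mul, conj_ofReal]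
      have e3 : ((√(u e) : ℝ) : ℂ) * (starRingEnd ℂ) (h ((σ ^ k) e)) * (((√(u e) : ℝ) : ℂ) * h ((σ ^ (k + 1)) e)) =
          ((u e : ℝ) : ℂ) * ((starRingEnd ℂ) (h ((σ ^ k) e)) * h ((σ ^ (k + 1)) e)) := by
        have e4 : ((u e : ℝ) : ℂ) = ((√(u e) : ℝ) : ℂ) ^ 2 := by
          rw [← ofReal_pow, hq]
        rw [e4]
        ring
      rw [e3, im_ofReal_mul]
    have e3 : ∀ k : ℕ, fu 0 (((√(u ((σ ^ k) e)) : ℝ) : ℂ) * h ((σ ^ k) e)) 0 (((√(u ((σ ^ (k + 1)) e)) : ℝ) : ℂ) * h ((σ ^ (k + 1)) e)) =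
        u e * normSq (h ((σ ^ (k + 1)) e) - h ((σ ^ k) e)) := by
      intro k
      rw [hs, hs]
      unfold fu
      rw [sub_self, map_zero, zero_add, ← mul_sub, normSq_mul, normSq_ofReal]
      congr 1
      have := hq e
      rw [pow_two] at this
      exact this
    simp only [e1, e2, e3, Finset.sum_const_zero, abs_zero, zero_add, one_mul]
    rw [← Finset.mul_sum, ← Finset.mul_sum, abs_mul, abs_of_nonneg (hu0 e)]
    have h2 := mul_le_mul_of_nonneg_left (hb e) (hu0 e)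
    linarith)
  have f1 : ∀ e, fj 0 (((√(u e) : ℝ) : ℂ) * h e) 0 (((√(u (σ e)) : ℝ) : ℂ) * h (σ e)) = 0 := by
    intro e
    unfold fj
    simp
  have f2 : ∀ e, fa 0 (((√(u e) : ℝ) : ℂ) * h e) 0 (((√(u (σ e)) : ℝ) : ℂ) * h (σ e)) = u e * ((starRingEnd ℂ) (h e) * h (σ e)).im := by
    intro e
    rw [hu]
    unfold fa
    rw [map_zero, zero_mul, zero_im, zero_add, map_mul, conj_ofReal]
    have e3 : ((√(u e) : ℝ) : ℂ) * (starRingEnd ℂ) (h e) * (((√(u e) : ℝ) : ℂ) * h (σ e)) = ((u e : ℝ) : ℂ) * ((starRingEnd ℂ) (h e) * h (σ e)) := by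
      have e4 : ((u e : ℝ) : ℂ) = ((√(u e) : ℝ) : ℂ) ^ 2 := by
        rw [← ofReal_pow, hq]
      rw [e4]
      ring
    rw [e3, im_ofReal_mul]
  have f3 : ∀ e, fu 0 (((√(u e) : ℝ) : ℂ) * h e) 0 (((√(u (σ e)) : ℝ) : ℂ) * h (σ e)) = u e * normSq (h (σ e) - h e) := by
    intro e
    rw [hu]
    unfold fu
    rw [sub_self, map_zero, zero_add, ← mul_sub, normSq_mul, normSq_ofReal]
    congr 1
    have := hq e
    rw [pow_two] at this
    exact this
  simp only [f1, f2, f3, Finset.sum_const_zero, abs_zero, zero_add, one_mul] at h1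
  refine h1.trans (le_of_eq (Finset.sum_congr rfl fun e _ => ?_))
  ring

variable {W : Ws P}

/-- The area with the weights `u` (right sides) and `v` (left sides). -/
theorem area_le (u v : P → ℝ) (hu : ∀ e, u (W.sg e) = u e) (hv : ∀ e, v (W.sg e) = v e) (hu0 : ∀ e, 0 ≤ u e) (hv0 : ∀ e, 0 ≤ v e)
    (r l : P → ℝ) (hr : ∀ e, r (W.sg e) = r e) (hl : ∀ e, l (W.sg e) = l e)
    (hbr : ∀ e, |∑ k ∈ range (Function.minimalPeriod W.sg e), ((starRingEnd ℂ) (W.R ((W.sg ^ k) e)) * W.R ((W.sg ^ (k + 1)) e)).im| ≤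
      r e * ∑ k ∈ range (Function.minimalPeriod W.sg e), normSq (W.R ((W.sg ^ (k + 1)) e) - W.R ((W.sg ^ k) e)))
    (hbl : ∀ e, |∑ k ∈ range (Function.minimalPeriod W.sg e), ((starRingEnd ℂ) (W.L ((W.sg ^ k) e)) * W.L ((W.sg ^ (k + 1)) e)).im| ≤
      l e * ∑ k ∈ range (Function.minimalPeriod W.sg e), normSq (W.L ((W.sg ^ (k + 1)) e) - W.L ((W.sg ^ k) e)))
    {t : ℝ} (ht : 0 ≤ t) (huv : ∀ x, W.lf x = true → W.R x ≠ W.R (W.sg.symm x) → u x + v (W.op x) = t) :
    t * |∑ x ∈ W.X, (2 * ((starRingEnd ℂ) (W.R (W.sg.symm x)) * W.R x).im)| ≤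
      ∑ x ∈ W.X, 2 * (u x * r x + v (W.op x) * l (W.op x)) * normSq (W.R x - W.R (W.sg.symm x)) := by
  have h1 := perm_area W.sg W.R u hu hu0 r hr hbr
  have h2 := perm_area W.sg W.L v hv hv0 l hl hbl
  have g1 := Ws.sum_col (W := W) u hu (fun _ b _ d => ((starRingEnd ℂ) b * d).im)
  have g2 := Ws.sum_col (W := W) v hv (fun a _ c _ => ((starRingEnd ℂ) a * c).im)
  have g3 := Ws.sum_col (W := W) (fun e => u e * r e) (fun e => by show u (W.sg e) * r (W.sg e) = u e * r e; rw [hu, hr]) (fun _ b _ d => normSq (d - b))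
  have g4 := Ws.sum_col (W := W) (fun e => v e * l e) (fun e => by show v (W.sg e) * l (W.sg e) = v e * l e; rw [hv, hl]) (fun a _ c _ => normSq (c - a))
  rw [g1, g3] at h1
  rw [g2, g4] at h2
  have k0 : ∀ z : ℂ, ((starRingEnd ℂ) z * z).im = 0 := by
    intro z
    simp only [mul_im, conj_re, conj_im]
    ring
  simp only [k0, mul_zero, add_zero, zero_add, sub_self, map_zero] at h1 h2
  have e1 : t * ∑ x ∈ W.X, (2 * ((starRingEnd ℂ) (W.R (W.sg.symm x)) * W.R x).im) =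
      2 * (∑ x ∈ W.X, u x * ((starRingEnd ℂ) (W.R (W.sg.symm x)) * W.R x).im +
        ∑ x ∈ W.X, v (W.op x) * ((starRingEnd ℂ) (W.R (W.sg.symm x)) * W.R x).im) := by
    rw [← Finset.sum_add_distrib, Finset.mul_sum, Finset.mul_sum]
    refine Finset.sum_congr rfl fun x hx => ?_
    by_cases h : W.R x = W.R (W.sg.symm x)
    · rw [h, k0]
      ring
    · have h3 := huv x (Ws.mem_X.1 hx) h
      linear_combination (-2 * ((starRingEnd ℂ) (W.R (W.sg.symm x)) * W.R x).im) * h3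
  have e2 : ∑ x ∈ W.X, 2 * (u x * r x + v (W.op x) * l (W.op x)) * normSq (W.R x - W.R (W.sg.symm x)) =
      2 * (∑ x ∈ W.X, u x * r x * normSq (W.R x - W.R (W.sg.symm x)) + ∑ x ∈ W.X, v (W.op x) * l (W.op x) * normSq (W.R x - W.R (W.sg.symm x))) := by
    rw [← Finset.sum_add_distrib, Finset.mul_sum]
    refine Finset.sum_congr rfl fun x _ => ?_
    ring
  have e5 : t * |∑ x ∈ W.X, (2 * ((starRingEnd ℂ) (W.R (W.sg.symm x)) * W.R x).im)| =
      |t * ∑ x ∈ W.X, (2 * ((starRingEnd ℂ) (W.R (W.sg.symm x)) * W.R x).im)| := by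
    rw [abs_mul, abs_of_nonneg ht]
  rw [e5, e1, e2, abs_mul, abs_of_nonneg (by norm_num : (0 : ℝ) ≤ 2)]
  refine mul_le_mul_of_nonneg_left ((abs_add_le _ _).trans (add_le_add h1 h2)) (by norm_num)

/-- **The lens**, with the coefficient `ka` for the circles and `la` for the regions. -/
theorem zero_ofA {s : ℂ} (hs0 : s ≠ 0) (q : P → ℂ)
    (hq : ∀ x, W.lf x = true → 2 * s * (W.L x + W.R (W.op x)) =
      (1 + s ^ 2) * (W.R x + W.R (W.sg.symm x) + q x * (W.R x - W.R (W.sg.symm x))))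
    {al ka la : ℝ} (h0 : 0 ≤ al) (hka : 0 ≤ ka) (hla : 0 ≤ la) (w : P → ℝ) (hw : ∀ e, w (W.sg e) = w e)
    (hb : ∀ e, |∑ k ∈ range (Function.minimalPeriod W.sg e),
        fj (W.L ((W.sg ^ k) e)) (W.R ((W.sg ^ k) e)) (W.L ((W.sg ^ (k + 1)) e)) (W.R ((W.sg ^ (k + 1)) e))| +
      al * |∑ k ∈ range (Function.minimalPeriod W.sg e),
        fa (W.L ((W.sg ^ k) e)) (W.R ((W.sg ^ k) e)) (W.L ((W.sg ^ (k + 1)) e)) (W.R ((W.sg ^ (k + 1)) e))| ≤
      w e * ∑ k ∈ range (Function.minimalPeriod W.sg e),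
        fu (W.L ((W.sg ^ k) e)) (W.R ((W.sg ^ k) e)) (W.L ((W.sg ^ (k + 1)) e)) (W.R ((W.sg ^ (k + 1)) e)))
    (y : P → ℝ) (hy : la * |∑ x ∈ W.X, (2 * ((starRingEnd ℂ) (W.R (W.sg.symm x)) * W.R x).im)| ≤ ∑ x ∈ W.X, y x * normSq (W.R x - W.R (W.sg.symm x)))
    {σ : ℝ} (hσ : |σ| ≤ 1)
    (hm : ∀ x, W.lf x = true → W.R x ≠ W.R (W.sg.symm x) → (ka * (w x + w (W.op x)) + y x) * |(s + s⁻¹).im| <
      ka * (normSq (s + s⁻¹) / 2 * (q x).re + al * (σ * ((s + s⁻¹) * q x).re)) + la * (σ * ((s + s⁻¹) * q x).re)) :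
    ∀ x, W.lf x = true → W.R x = W.R (W.sg.symm x) := by
  have hp := perm_bound_of W.sg W.L W.R h0 w hw hb
  set a : ℝ := ∑ x ∈ W.X, (2 * ((starRingEnd ℂ) (W.R (W.sg.symm x)) * W.R x).im) with ha
  set j : ℝ := ∑ x ∈ W.X, ((W.L x + W.R (W.op x)) * (starRingEnd ℂ) (W.R x - W.R (W.sg.symm x))).im with hj
  set Q : ℂ := ∑ x ∈ W.X, q x * (normSq (W.R x - W.R (W.sg.symm x)) : ℝ) with hQ
  obtain ⟨i1, i2⟩ := Ws.identities (W := W) hs0 q (fun x hx => hq x (Ws.mem_X.1 hx)) ha hj hQ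
  have e1 : ∑ e, fj (W.L e) (W.R e) (W.L (W.sg e)) (W.R (W.sg e)) = j := by
    have h := Ws.sum_col (W := W) (fun _ => 1) (fun _ => rfl) fj
    simp only [one_mul] at h
    rw [h, hj]
    refine Finset.sum_congr rfl fun x _ => ?_
    unfold fj
    simp only [sub_self, map_zero, mul_zero, zero_im, zero_add, add_zero, map_sub, mul_im, add_re, add_im, sub_re, sub_im, conj_re, conj_im]
    ring
  have e2 : ∑ e, fa (W.L e) (W.R e) (W.L (W.sg e)) (W.R (W.sg e)) = a := by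
    have h := Ws.sum_col (W := W) (fun _ => 1) (fun _ => rfl) fa
    simp only [one_mul] at h
    rw [h, ha]
    refine Finset.sum_congr rfl fun x _ => ?_
    unfold fa
    simp only [mul_im, conj_re, conj_im]
    ring
  have e3 : ∑ e, w e * fu (W.L e) (W.R e) (W.L (W.sg e)) (W.R (W.sg e)) =
      ∑ x ∈ W.X, (w x + w (W.op x)) * normSq (W.R x - W.R (W.sg.symm x)) := by
    rw [Ws.sum_col (W := W) w hw fu]
    refine Finset.sum_congr rfl fun x _ => ?_
    unfold fu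
    rw [sub_self, sub_self, map_zero]
    ring
  rw [e1, e2, e3] at hp
  set v : ℂ := s + s⁻¹ with hv
  -- the margins, summed
  have f0 : ∑ x ∈ W.X, (ka * (normSq v / 2 * (q x).re + al * (σ * (v * q x).re)) + la * (σ * (v * q x).re)) * normSq (W.R x - W.R (W.sg.symm x)) =
      ka * (normSq v / 2 * Q.re + al * (σ * (v * Q).re)) + la * (σ * (v * Q).re) := by
    rw [hQ, Complex.re_sum, Finset.mul_sum (s := W.X) (a := v), Complex.re_sum, Finset.mul_sum (s := W.X) (a := normSq v / 2),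
      Finset.mul_sum (s := W.X) (a := σ), Finset.mul_sum (s := W.X) (a := al), ← Finset.sum_add_distrib, Finset.mul_sum (s := W.X) (a := ka),
      Finset.mul_sum (s := W.X) (a := la), ← Finset.sum_add_distrib]
    refine Finset.sum_congr rfl fun x _ => ?_
    have g : (v * (q x * (normSq (W.R x - W.R (W.sg.symm x)) : ℝ))).re = (v * q x).re * normSq (W.R x - W.R (W.sg.symm x)) := by
      rw [← mul_assoc, Complex.re_mul_ofReal]
    rw [g, Complex.re_mul_ofReal]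
    ring
  have g4 : σ * (v * Q).re ≤ |v.im| * |a| := by
    have g2 : (v * Q).re = -(v.im * a) := by linarith
    rw [g2]
    calc σ * -(v.im * a) ≤ |σ * -(v.im * a)| := le_abs_self _
      _ = |σ| * (|v.im| * |a|) := by rw [abs_mul, abs_neg, abs_mul]
      _ ≤ 1 * (|v.im| * |a|) := mul_le_mul_of_nonneg_right hσ (by positivity)
      _ = _ := one_mul _
  have f2 : normSq v / 2 * Q.re + al * (σ * (v * Q).re) ≤ |v.im| * (|j| + al * |a|) := by
    have g1 : normSq v / 2 * Q.re = v.im * j := by linarith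
    rw [g1]
    have g3 : v.im * j ≤ |v.im| * |j| := by
      rw [← abs_mul]
      exact le_abs_self _
    have g5 := mul_le_mul_of_nonneg_left g4 h0
    linarith
  have f3 : normSq v / 2 * Q.re + al * (σ * (v * Q).re) ≤ |v.im| * ∑ x ∈ W.X, (w x + w (W.op x)) * normSq (W.R x - W.R (W.sg.symm x)) :=
    f2.trans (mul_le_mul_of_nonneg_left hp (abs_nonneg v.im))
  have f3' : la * (σ * (v * Q).re) ≤ |v.im| * ∑ x ∈ W.X, y x * normSq (W.R x - W.R (W.sg.symm x)) := by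
    have h5 := mul_le_mul_of_nonneg_left g4 hla
    have h6 := mul_le_mul_of_nonneg_left hy (abs_nonneg v.im)
    have h7 : la * (|v.im| * |a|) = |v.im| * (la * |a|) := by ring
    linarith
  have f6 : ka * (normSq v / 2 * Q.re + al * (σ * (v * Q).re)) + la * (σ * (v * Q).re) ≤
      ∑ x ∈ W.X, (ka * (w x + w (W.op x)) + y x) * |v.im| * normSq (W.R x - W.R (W.sg.symm x)) := by
    have h5 := mul_le_mul_of_nonneg_left f3 hka
    have h7 : ∑ x ∈ W.X, (ka * (w x + w (W.op x)) + y x) * |v.im| * normSq (W.R x - W.R (W.sg.symm x)) =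
        ka * (|v.im| * ∑ x ∈ W.X, (w x + w (W.op x)) * normSq (W.R x - W.R (W.sg.symm x))) +
        |v.im| * ∑ x ∈ W.X, y x * normSq (W.R x - W.R (W.sg.symm x)) := by
      rw [Finset.mul_sum (a := |v.im|), Finset.mul_sum (a := ka), Finset.mul_sum (a := |v.im|), ← Finset.sum_add_distrib]
      refine Finset.sum_congr rfl fun x _ => ?_
      ring
    rw [h7]
    linarith
  rw [← f0, ← sub_nonneg, ← Finset.sum_sub_distrib] at f6
  have f5 : ∀ x ∈ W.X, (ka * (w x + w (W.op x)) + y x) * |v.im| * normSq (W.R x - W.R (W.sg.symm x)) -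
      (ka * (normSq v / 2 * (q x).re + al * (σ * (v * q x).re)) + la * (σ * (v * q x).re)) * normSq (W.R x - W.R (W.sg.symm x)) ≤ 0 := by
    intro x hx
    by_cases h : W.R x = W.R (W.sg.symm x)
    · rw [h, sub_self, map_zero, mul_zero, mul_zero, sub_self]
    · have h8 := hm x (Ws.mem_X.1 hx) h
      have h9 := mul_le_mul_of_nonneg_right h8.le (normSq_nonneg (W.R x - W.R (W.sg.symm x)))
      linarith
  intro x hx
  by_contra hne
  have f7 := (Finset.sum_eq_zero_iff_of_nonpos f5).1 (le_antisymm (Finset.sum_nonpos f5) f6) x (Ws.mem_X.2 hx)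
  have f8 := hm x hx hne
  have f9 : 0 < normSq (W.R x - W.R (W.sg.symm x)) := normSq_pos.2 (sub_ne_zero.2 hne)
  have f10 := mul_lt_mul_of_pos_right f8 f9
  linarith

end Pool.Agent.Helper57.VA
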